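import Pool.Agent.R428.Q0.Dat
import Pool.Agent.L0h4.TD.Cyx

/-!
# The data of the descent for the twists over `ℚ`, all odd primes
-/

set_option autoImplicit false
set_option linter.unusedSectionVars false

namespace Pool.Agent.L0h4.TD

open Pool.Agent.Y698 Pool.Agent.Y698.SG Pool.Agent.R428.Q0
open NumberField IsDedekindDomain Ideal IsCyclotomicExtension.Rat WithZero
open Pool.Agent.H921R2.TatePole Pool.Agent.H82R3.EK
open Pool.Agent.W192.HK (sp)
open Pool.Agent.Y279.SG (cj_mem cXY_cj sy_cj)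
open Pool.Agent.L0h4.TW (InP SpP Dt NonSing pfx sg D1 D2 sy_mul' N1 pf7 nt mm Recip gd_transp
  gd_ker nt_D1 D1_seven pf7_o sy_seven sg_coe sgz prime_of_nR Od)

/-! ### the family -/

/-- a family of primes prime to `√-7` -/
structure FY {ι : Type} (I : Finset ι) (π : ι → RR) : Prop where
  pr : ∀ i ∈ I, Prime (π i)
  ne : ∀ i ∈ I, ∀ j ∈ I, i ≠ j → π i ∉ sp (π j)
  f7 : ∀ i ∈ I, fR ∉ sp (π i)

lemma sy_oneX {ϖ : RR} (h : Prime ϖ) : sy ϖ 1 = 1 := by
  have h1 := sy_mul' h 1 1
  rw [mul_one] at h1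
  have hn : (1 : RR) ∉ sp ϖ := by
    intro h2
    rw [Ideal.mem_span_singleton] at h2
    exact h.not_isUnit (isUnit_of_dvd_one h2)
  rcases sy_sgn hn with h2 | h2
  · exact h2
  · rw [h2] at h1
    norm_num at h1

lemma sy_prodX {ϖ : RR} (h : Prime ϖ) {ι : Type} (U : Finset ι) (π : ι → RR) :
    sy ϖ (∏ i ∈ U, π i) = ∏ i ∈ U, sy ϖ (π i) := by
  classical
  induction U using Finset.induction_on with
  | empty => rw [Finset.prod_empty, Finset.prod_empty, sy_oneX h]
  | insert i U hi ih => rw [Finset.prod_insert hi, Finset.prod_insert hi, sy_mul' h, ih]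

lemma prod_notinX {ι : Type} {I U : Finset ι} {π : ι → RR} (hf : FY I π) (hU : U ⊆ I) {i : ι}
    (hi : i ∈ I) (hiU : i ∉ U) (e : Bool) : fb e * ∏ j ∈ U, π j ∉ sp (π i) := by
  classical
  have hp := hf.pr i hi
  intro h
  rw [Ideal.mem_span_singleton] at h
  rcases hp.dvd_or_dvd h with h1 | h1
  · cases e
    · exact hp.not_isUnit (isUnit_of_dvd_one h1)
    · exact hf.f7 i hi (Ideal.mem_span_singleton.2 h1)
  · obtain ⟨j, hj, h2⟩ := (Prime.dvd_finsetProd_iff hp _).1 h1
    exact hf.ne j (hU hj) i hi (fun h3 => hiU (h3 ▸ hj)) (Ideal.mem_span_singleton.2 h2)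

lemma lg_syX {ι : Type} {I U : Finset ι} {π : ι → RR} (hf : FY I π) (hU : U ⊆ I) {i : ι}
    (hi : i ∈ I) (hiU : i ∉ U) (e : Bool) (h : sy (π i) (fb e * ∏ j ∈ U, π j) = 1) :
    (if e then dc π i else 0) + ∑ j ∈ U, dr π i j = 0 := by
  have hp := hf.pr i hi
  have h1 := sgn_prod (s := U) (f := fun j => sy (π i) (π j)) fun j hj =>
    sy_sgn (hf.ne j (hU hj) i hi (fun h3 => hiU (h3 ▸ hj)))
  rw [sy_mul' hp, sy_prodX hp] at h
  unfold dr
  rw [← h1.2]
  cases e
  · have e1 : fb false = 1 := rfl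
    rw [e1, sy_oneX hp, one_mul] at h
    rw [h, lg_one]
    simp
  · have e1 : fb true = fR := rfl
    rw [e1] at h
    unfold dc
    simp only [if_true]
    rw [← lg_mul (sy_sgn (hf.f7 i hi)) h1.1, h, lg_one]

section
variable {F : Type*} [Field F] [CharZero F] {b : F} (hb : b ^ 2 = b - 2)

include hb in
/-- the finite part -/
theorem finP_X {V : Set (Valuation F ℤᵐ⁰)} {S : Finset ℕ} {I : Finset (ℕ × Bool)}
    {π : ℕ × Bool → RR} (hf : FY I π) (hprod : ∏ i ∈ I, π i = ((∏ q ∈ S, q : ℕ) : RR))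
    (hA : ∀ i ∈ I, ∃ w ∈ V, w (ev b hb (π i)) = exp (-1) ∧ w 7 = 1 ∧
      ∀ x : RR, x ∉ sp (π i) → Sq w (ev b hb x) → sy (π i) x = 1)
    (hNS : ∀ T ⊆ I, (∀ i ∈ I \ T, ∑ j ∈ T, dr π i j = 0) →
      (∀ i ∈ T, dc π i + ∑ j ∈ I \ T, dr π i j = 0) → T = ∅) : FinP b hb V S I π := by
  classical
  intro g T e hT hg hloc
  have hDD := fam_DD (a := b) (ha := hb) hprod
  have hs : ev b hb fR = 2 * b - 1 := by
    unfold fR
    rw [map_sub, map_mul, map_ofNat, ev_aR, map_one]
  have hfb : ∀ e : Bool, (if e then (2 * b - 1) else 1) = ev b hb (fb e) := by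
    intro e
    cases e
    · exact (map_one _).symm
    · exact hs.symm
  have hs0 := s_ne hb
  have hev : ∀ (e : Bool) (U : Finset (ℕ × Bool)), (if e then (2 * b - 1) else 1) *
      ∏ i ∈ U, ev b hb (π i) = ev b hb (fb e * ∏ i ∈ U, π i) := by
    intro e U
    rw [map_mul, map_prod, hfb]
  have key : ∀ i ∈ I, (i ∉ T → (if e then dc π i else 0) + ∑ j ∈ T, dr π i j = 0) ∧
      (i ∈ T → (if !e then dc π i else 0) + ∑ j ∈ I \ T, dr π i j = 0) := by
    intro i hi
    obtain ⟨w, hw, hwi, hw7, hsq⟩ := hA i hi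
    have hlt : w (ev b hb (π i)) < 1 := by
      rw [hwi, ← exp_zero, exp_lt_exp]
      norm_num
    have hpi := hf.pr i hi
    -- units
    have hunit : ∀ (e : Bool) (U : Finset (ℕ × Bool)), U ⊆ I → i ∉ U →
        w (ev b hb (fb e * ∏ j ∈ U, π j)) = 1 := by
      intro e U hU hiU
      refine le_antisymm (w_ev hb w _) (not_lt.1 fun h1 => ?_)
      exact prod_notinX hf hU hi hiU e (Ideal.mem_span_singleton.2 ((undr_eq hb hpi hlt _).1 h1))
    have hU1 : ∀ (U : Finset (ℕ × Bool)), U ⊆ I → i ∉ U → w (∏ j ∈ U, ev b hb (π j)) = 1 := by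
      intro U hU hiU
      have h1 := hunit false U hU hiU
      rw [← hev] at h1
      simpa using h1
    have hsu : w (2 * b - 1) = 1 := by
      have h3 : w (2 * b - 1) ^ 2 = 1 := by
        rw [← map_pow, s_sq hb, Valuation.map_neg, hw7]
      exact (pow_eq_one_iff_of_nonneg zero_le two_ne_zero).1 h3
    have hse : ∀ e : Bool, w (if e then (2 * b - 1) else 1) = 1 := by
      intro e
      cases e
      · simp
      · simpa using hsu
    have hDe : w (DD F S) = exp (-1) := by
      rw [← hDD, ← Finset.mul_prod_erase I _ hi, map_mul, hwi,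
        hU1 _ (Finset.erase_subset _ _) (Finset.notMem_erase _ _), mul_one]
    have hD1 : w (DD F S) < 1 := by
      rw [hDe, ← exp_zero, exp_lt_exp]
      norm_num
    have hodd : ∀ x : F, w x = exp (-1) → ¬ Ev w x := by
      rintro x hx ⟨z, hz, h⟩
      refine ev_odd_val hz h (k := -1) ?_
      rw [hx]
      congr 1
    have hl := hloc w hw hw7 hD1
    constructor
    · intro hiT
      rcases hl with h1 | h1
      · have h2 := h1.sqE hg.symm
        rw [hev] at h2
        exact lg_syX hf hT hi hiT e (hsq _ (prod_notinX hf hT hi hiT e) h2)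
      · exfalso
        have h2 := (h1.sqE ((SqE.refl (DD F S * (2 * b - 1))).mul hg).symm).ev
        refine hodd _ ?_ h2
        rw [map_mul, map_mul, map_mul, hDe, hsu, hse, hU1 T hT hiT]
        simp
    · intro hiT
      have hiT' : i ∉ I \ T := fun h => (Finset.mem_sdiff.1 h).2 hiT
      rcases hl with h1 | h1
      · exfalso
        have h2 := (h1.sqE hg.symm).ev
        refine hodd _ ?_ h2
        rw [map_mul, hse, one_mul, ← Finset.mul_prod_erase T _ hiT, map_mul, hwi,
          hU1 _ ((Finset.erase_subset _ _).trans hT) (Finset.notMem_erase _ _), mul_one]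
      · have h2 := h1.sqE ((SqE.refl (DD F S * (2 * b - 1))).mul hg).symm
        have hne : ∀ j ∈ I, ev b hb (π j) ≠ 0 := by
          have hD0 : DD F S ≠ 0 := by
            intro h0
            rw [h0, map_zero] at hDe
            exact exp_ne_zero hDe.symm
          rw [← hDD, Finset.prod_ne_zero_iff] at hD0
          exact hD0
        have hPT : ∏ j ∈ T, ev b hb (π j) ≠ 0 := by
          rw [Finset.prod_ne_zero_iff]
          exact fun j hj => hne j (hT hj)
        have h3 : Sq w ((if !e then (2 * b - 1) else 1) * ∏ j ∈ I \ T, ev b hb (π j)) := by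
          refine h2.sqE ?_
          have e1 : DD F S = (∏ j ∈ I \ T, ev b hb (π j)) * ∏ j ∈ T, ev b hb (π j) := by
            rw [← hDD, Finset.prod_sdiff hT]
          rw [e1]
          cases e
          · refine ⟨(∏ j ∈ T, ev b hb (π j))⁻¹, inv_ne_zero hPT, ?_⟩
            simp only [Bool.not_false, if_true, Bool.false_eq_true, if_false, one_mul]
            field_simp
          · refine ⟨((2 * b - 1) * ∏ j ∈ T, ev b hb (π j))⁻¹,
              inv_ne_zero (mul_ne_zero hs0 hPT), ?_⟩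
            simp only [Bool.not_true, Bool.false_eq_true, if_false, if_true, one_mul]
            field_simp
        rw [hev] at h3
        exact lg_syX hf Finset.sdiff_subset hi hiT' (!e)
          (hsq _ (prod_notinX hf Finset.sdiff_subset hi hiT' (!e)) h3)
  cases e with
  | false =>
    left
    have hT0 : T = ∅ := by
      refine hNS T hT (fun i hi => ?_) (fun i hi => ?_)
      · rw [Finset.mem_sdiff] at hi
        simpa using (key i hi.1).1 hi.2
      · simpa using (key i (hT hi)).2 hi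
    rw [hT0] at hg
    simpa using hg
  | true =>
    right
    have hT0 : I \ T = ∅ := by
      refine hNS (I \ T) Finset.sdiff_subset (fun i hi => ?_) (fun i hi => ?_)
      · rw [Finset.sdiff_sdiff_eq_self hT] at hi
        simpa using (key i (hT hi)).2 hi
      · rw [Finset.sdiff_sdiff_eq_self hT]
        rw [Finset.mem_sdiff] at hi
        simpa using (key i hi.1).1 hi.2
    have hTI : T = I := Finset.Subset.antisymm hT (Finset.sdiff_eq_empty_iff_subset.1 hT0)
    rw [hTI, hDD] at hg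
    simp only [if_true] at hg
    rw [mul_comm] at hg
    exact hg

end

/-! ### the conjugate family -/

section
variable {Q P : Finset ℕ} {ϖ : ℕ → RR}

/-- the conjugate family -/
noncomputable def pc (Q : Finset ℕ) (ϖ : ℕ → RR) (i : ℕ × Bool) : RR := cj (pfx Q ϖ i)

lemma cj_fR : cj fR = -fR := by
  apply RR_ext
  · rw [(cXY_cj fR).1, (cXY_neg fR).1, cXY_fR.1, cXY_fR.2]
    norm_num
  · rw [(cXY_cj fR).2, (cXY_neg fR).2]

lemma cj_aR : cj aR = 1 - aR := by
  have h5 : cj aR = (cX aR : RR) + (cY aR : RR) * (1 - aR) := rfl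
  rw [h5, cXY_aR.1, cXY_aR.2]
  push_cast
  ring

lemma N2_cj {x : RR} (h : N1 x) : N2 (cj x) := by
  obtain ⟨u, rfl⟩ := h
  exact ⟨cj u, by rw [map_add, map_one, map_mul, map_pow, cj_aR]⟩

lemma prime_cj {x : RR} (h : Prime x) : Prime (cj x) := by
  have hinv : ∀ y : RR, cj (cj y) = y := cj_cj
  refine ⟨fun h0 => h.ne_zero ?_, fun hu => h.not_isUnit ?_, fun s t hst => ?_⟩
  · rw [← hinv x, h0, map_zero]
  · have := hu.map cj
    rwa [hinv] at this
  · have h1 : x ∣ cj s * cj t := by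
      rw [← map_mul]
      have := map_dvd cj hst
      rwa [hinv] at this
    rcases h.dvd_or_dvd h1 with h2 | h2
    · left
      have := map_dvd cj h2
      rwa [hinv] at this
    · right
      have := map_dvd cj h2
      rwa [hinv] at this

lemma fy_pc (h : Dt Q P ϖ) : FY (ix Q P) (pc Q ϖ) := by
  refine ⟨fun i hi => prime_cj (h.fx.pd i hi).pr, fun i hi j hj hij => ?_, fun i hi h0 => ?_⟩
  · intro h0
    exact h.fx.ne i hi j hj hij (cj_mem.1 h0)
  · have h1 := h.ne (Finset.mem_insert_self (7, false) (ix Q P)) (Finset.mem_insert_of_mem hi)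
      (fun h2 => h.ix7 (h2 ▸ hi))
    rw [pf7_o, h.pf hi] at h1
    apply h1
    have h2 : cj (-fR) ∈ sp (cj (pfx Q ϖ i)) := by
      rw [map_neg, cj_fR, neg_neg]
      exact h0
    exact cj_mem.1 h2

lemma prod_pc (h : Dt Q P ϖ) (h4 : (∏ q ∈ Q ∪ P, q) % 4 = 1) :
    ∏ i ∈ ix Q P, pc Q ϖ i = ((∏ q ∈ Q ∪ P, q : ℕ) : RR) := by
  unfold pc
  rw [← map_prod, h.prod_pfx h4, map_natCast]

lemma dr_pc (i j : ℕ × Bool) : dr (pc Q ϖ) i j = mr (pfx Q ϖ) j i := by
  unfold dr mr pc
  rw [sy_cj]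

lemma dc_pc (h : Dt Q P ϖ) {i : ℕ × Bool} (hi : i ∈ ix Q P) :
    dc (pc Q ϖ) i = mc (pfx Q ϖ) i + nt (pf7 Q ϖ i) := by
  have h1 := h.rec7 i (Finset.mem_insert_of_mem hi) (7, false) (Finset.mem_insert_self _ _)
    (fun h2 => h.ix7 (h2 ▸ hi))
  rw [pf7_o, nt_D1 D1_seven] at h1
  unfold mm at h1
  rw [pf7_o, sy_seven, h.pf hi] at h1
  rw [h.pf hi]
  unfold dc mc pc
  have e : sy (cj (pfx Q ϖ i)) fR = sy (pfx Q ϖ i) (-fR) := by
    have h2 := sy_cj (pfx Q ϖ i) (-fR)
    rw [map_neg, cj_fR, neg_neg] at h2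
    exact h2
  rw [e]
  have h3 : (if 7 % 4 = 3 then (1 : ZMod 2) else 0) = 1 := rfl
  rw [h3, mul_one] at h1
  have h4 := Pool.Agent.L0h4.TW.two_self (lg (e7 (pfx Q ϖ i)))
  linear_combination h1 - h4

/-- the kernel for the descent -/
theorem ker_pc (h : Dt Q P ϖ) (hns : NonSing Q P ϖ) : ∀ T ⊆ ix Q P,
    (∀ i ∈ ix Q P \ T, ∑ j ∈ T, dr (pc Q ϖ) i j = 0) →
      (∀ i ∈ T, dc (pc Q ϖ) i + ∑ j ∈ ix Q P \ T, dr (pc Q ϖ) i j = 0) → T = ∅ := by
  classical
  intro T hT h1 h2
  have hrec : Recip (fun i => nt (pf7 Q ϖ i)) (mr (pfx Q ϖ)) (ix Q P) := by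
    intro i hi j hj hij
    have := h.rec7 i (Finset.mem_insert_of_mem hi) j (Finset.mem_insert_of_mem hj) hij
    unfold mm at this
    rw [h.pf hi, h.pf hj] at this
    unfold mr
    beta_reduce
    rw [h.pf hi, h.pf hj]
    exact this
  have hg : gd (fun i => mc (pfx Q ϖ) i + nt (pf7 Q ϖ i)) (fun i j => mr (pfx Q ϖ) j i)
      (ix Q P) ≠ 0 := by
    rw [gd_transp hrec h.ntsum]
    exact hns
  rw [gd_ker] at hg
  have hz := hg (fun i => if i ∈ T then 1 else 0) (by
    intro i hi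
    rw [← dc_pc h hi]
    have e1 : ∑ j ∈ ix Q P, mr (pfx Q ϖ) j i * ((if i ∈ T then (1 : ZMod 2) else 0) +
        (if j ∈ T then 1 else 0)) = if i ∈ T then ∑ j ∈ ix Q P \ T, dr (pc Q ϖ) i j else
          ∑ j ∈ T, dr (pc Q ϖ) i j := by
      rw [← Finset.sum_sdiff hT]
      by_cases hiT : i ∈ T
      · simp only [if_pos hiT]
        have e2 : ∑ j ∈ T, mr (pfx Q ϖ) j i * ((1 : ZMod 2) + (if j ∈ T then 1 else 0)) = 0 := by
          refine Finset.sum_eq_zero fun j hj => ?_
          rw [if_pos hj]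
          have : (1 + 1 : ZMod 2) = 0 := rfl
          rw [this, mul_zero]
        rw [e2, add_zero]
        refine Finset.sum_congr rfl fun j hj => ?_
        rw [if_neg (Finset.mem_sdiff.1 hj).2, add_zero, mul_one, dr_pc]
      · simp only [if_neg hiT]
        have e2 : ∑ j ∈ ix Q P \ T, mr (pfx Q ϖ) j i * ((0 : ZMod 2) +
            (if j ∈ T then 1 else 0)) = 0 := by
          refine Finset.sum_eq_zero fun j hj => ?_
          rw [if_neg (Finset.mem_sdiff.1 hj).2, add_zero, mul_zero]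
        rw [e2, zero_add]
        refine Finset.sum_congr rfl fun j hj => ?_
        rw [if_pos hj, zero_add, mul_one, dr_pc]
    rw [e1]
    by_cases hiT : i ∈ T
    · rw [if_pos hiT, if_pos hiT, mul_one]
      exact h2 i hiT
    · rw [if_neg hiT, if_neg hiT, mul_zero, zero_add]
      exact h1 i (Finset.mem_sdiff.2 ⟨hi, hiT⟩))
  by_contra hne
  obtain ⟨i, hi⟩ := Finset.nonempty_iff_ne_empty.2 hne
  have := hz i (hT hi)
  rw [if_pos hi] at this
  exact one_ne_zero this

lemma nR_pc (h : Dt Q P ϖ) {i : ℕ × Bool} (hi : i ∈ ix Q P) :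
    (i.1 ∈ Q ∧ nR (pc Q ϖ i) = (i.1 : ℤ) ^ 2 ∧ pc Q ϖ i ∣ ((i.1 : ℕ) : RR)) ∨
      (i.1 ∈ P ∧ nR (pc Q ϖ i) = i.1) := by
  unfold pc
  rcases h.kind hi with ⟨h1, h2⟩ | ⟨h1, h2⟩
  · left
    refine ⟨h1, by rw [Pool.Agent.L0h4.TW.nR_cj, h2.nR], ?_⟩
    rw [h2.eq, sg_coe, map_mul, map_intCast, map_natCast]
    refine ⟨((sgz i.1 : ℤ) : RR), ?_⟩
    have h3 := Pool.Agent.L0h4.TW.sg_sq i.1
    rw [sg_coe] at h3
    linear_combination -((i.1 : ℕ) : RR) * h3
  · right
    exact ⟨h1, by rw [Pool.Agent.L0h4.TW.nR_cj, h2.nR]⟩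

end

section
variable {M : Type} [Field M] [NumberField M] [hM : IsCyclotomicExtension {7} ℚ M]
  {F : Type} [Field F] [NumberField F] [Algebra F M]

include hM in
/-- the Frobenius element is trivial on `ℚ(√-7)` -/
theorem frob_fixX {p : ℕ} (hp : SpP p) {φ : Gal(M/ℚ)} (v : HeightOneSpectrum (𝓞 M))
    (hv : (p : 𝓞 M) ∈ v.asIdeal) (hcong : ∀ y : 𝓞 M, φ • y - y ^ p ∈ v.asIdeal)
    (b : M) (hb : b ^ 2 = b - 2) : φ b = b := by
  have hfact : Fact p.Prime := ⟨hp.pr⟩
  set w := v.valuation M with hw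
  have hwp : w (p : M) < 1 := by
    have e : (p : M) = algebraMap (𝓞 M) M (p : 𝓞 M) := (map_natCast _ _).symm
    rw [e]
    exact (v.valuation_lt_one_iff_mem (K := M) _).2 hv
  have hp7 : p ≠ 7 := hp.n7
  have hw7 : w (7 : M) = 1 := by
    have := w_nat_one (w := w) ((Nat.coprime_primes (by norm_num) hp.pr).2 hp7.symm : Nat.Coprime 7 p) hwp
    exact_mod_cast this
  have hw2 : w (2 : M) = 1 := by
    have := w_nat_one (w := w) ((Nat.coprime_primes Nat.prime_two hp.pr).2
      (by rintro rfl; exact absurd hp.odd (by norm_num)) : Nat.Coprime 2 p) hwp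
    exact_mod_cast this
  set c : M := 2 * b - 1 with hc
  have hc2 : c ^ 2 = -7 := by rw [hc]; linear_combination 4 * hb
  have hc1 : w c = 1 := by
    have h3 : w c ^ 2 = 1 := by rw [← map_pow, hc2, Valuation.map_neg, hw7]
    exact (pow_eq_one_iff_of_nonneg zero_le two_ne_zero).1 h3
  have hφc : φ c = c ∨ φ c = -c := by
    have h1 : (φ c) ^ 2 = c ^ 2 := by rw [← map_pow, hc2, map_neg, map_ofNat]
    exact sq_eq_sq_iff_eq_or_eq_neg.1 h1
  -- an integer congruent to `c`
  obtain ⟨s, hs⟩ : ∃ s : ℤ, w (c - s) < 1 := by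
    obtain ⟨t, ht⟩ := hp.sq
    obtain ⟨t, rfl⟩ := ZMod.intCast_surjective t
    have h1 : (p : ℤ) ∣ -7 - t * t := by
      rw [← ZMod.intCast_zmod_eq_zero_iff_dvd]
      push_cast
      rw [ht]
      ring
    obtain ⟨u, hu⟩ := h1
    have h2 : w ((c - t) * (c + t)) < 1 := by
      have h3 := congrArg (Int.cast : ℤ → M) hu
      push_cast at h3
      have e : (c - t) * (c + t) = (p : M) * u := by rw [← h3]; linear_combination hc2
      rw [e, map_mul]
      exact mul_lt_one_of_lt_of_le hwp (w_int u)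
    by_cases h3 : w (c - t) < 1
    · exact ⟨t, h3⟩
    · refine ⟨-t, ?_⟩
      push_cast
      rw [sub_neg_eq_add]
      have h4 : w (c - t) = 1 :=
        le_antisymm (Valuation.map_sub_le w hc1.le (w_int t)) (not_lt.1 h3)
      rw [map_mul, h4, one_mul] at h2
      exact h2
  have h1 : w (c ^ p - (s : M) ^ p) < 1 := pow_sub_val' hc1.le (w_int s) hs p
  have h2 : w ((s : M) ^ p - s) < 1 := by
    have h3 : (p : ℤ) ∣ s ^ p - s := by
      rw [← ZMod.intCast_zmod_eq_zero_iff_dvd]
      push_cast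
      rw [ZMod.pow_card, sub_self]
    obtain ⟨u, hu⟩ := h3
    have h4 := congrArg (Int.cast : ℤ → M) hu
    push_cast at h4
    rw [h4, map_mul]
    exact mul_lt_one_of_lt_of_le hwp (w_int u)
  have h3 := frob_val v (φ := φ) (Q := p) hp.pr.ne_zero hcong (x := c) hc1.le
  have h4 : w (φ c - c) < 1 := by
    have e : φ c - c = (φ c - c ^ p) + (c ^ p - (s : M) ^ p) + ((s : M) ^ p - s) - (c - s) := by
      ring
    rw [e]
    exact Valuation.map_sub_lt w (Valuation.map_add_lt w (Valuation.map_add_lt w h3 h1) h2) hs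
  have h5 : φ c = c := by
    refine hφc.resolve_right fun h5 => ?_
    rw [h5] at h4
    have e : -c - c = -(2 * c) := by ring
    rw [e, Valuation.map_neg, map_mul, hw2, hc1, one_mul] at h4
    exact lt_irrefl _ h4
  rw [hc, map_sub, map_mul, map_one, map_ofNat] at h5
  have h20 : (2 : M) ≠ 0 := two_ne_zero
  apply mul_left_cancel₀ h20
  linear_combination h5

include hM in
theorem cx_of {Q P : Finset ℕ} {ϖ : ℕ → RR} (h : Dt Q P ϖ) (h4 : (∏ q ∈ Q ∪ P, q) % 4 = 1)
    (hns : NonSing Q P ϖ) {a : F} (ha : a ^ 2 = a - 2)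
    (hF : ∀ x : F, ∃ u v : ℚ, x = u + v * a) : CX a ha (VV F M) (Q ∪ P) := by
  have hgp : ∀ q ∈ Q ∪ P, Od q := h.od
  have hq7 : ∀ q ∈ Q ∪ P, q ≠ 7 := fun q hq => (hgp q hq).n7
  obtain ⟨hbig, hw7⟩ := big0 (M := M) ha
  refine ⟨hbig, hF, hw7, ?_, h4, ?_⟩
  · intro q hq
    exact ⟨(hgp q hq).pr, hq7 q hq, (hgp q hq).odd⟩
  · have hfy := fy_pc h
    refine ⟨ix Q P, pc Q ϖ, hfy.pr, fun i hi => N2_cj (h.fx.pd i hi).n1,
      prod_pc h h4, fun b hb => ?_⟩
    refine finP_X hb hfy (prod_pc h h4) ?_ (ker_pc h hns)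
    intro i hi
    have hpi := hfy.pr i hi
    obtain ⟨w, hw, hlt⟩ := (big0 (M := M) hb).1.ex (pc Q ϖ i) hpi.not_isUnit
    obtain ⟨v, rfl⟩ := hw
    have hnorm := nR_pc h hi
    set q : ℕ := i.1 with hqdef
    have hqS : q ∈ Q ∪ P := by
      rcases hnorm with ⟨h1, -, -⟩ | ⟨h1, -⟩
      · exact Finset.mem_union_left _ h1
      · exact Finset.mem_union_right _ h1
    have hqp := (hgp q hqS).pr
    have hqf : Fact q.Prime := ⟨hqp⟩
    have hdq : pc Q ϖ i ∣ ((q : ℕ) : RR) := by
      rcases hnorm with ⟨-, -, h3⟩ | ⟨-, h3⟩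
      · exact h3
      · have h2 := mul_cj (pc Q ϖ i)
        rw [h3] at h2
        exact ⟨cj (pc Q ϖ i), by rw [h2]; rfl⟩
    -- the place lies above `q`
    have hwq : ((v.valuation M).comap (algebraMap F M)) (q : F) < 1 := by
      have h2 := (undr_eq hb hpi hlt ((q : ℕ) : RR)).2 hdq
      rw [map_natCast] at h2
      exact h2
    have hmem : (q : 𝓞 M) ∈ v.asIdeal := by
      rw [Valuation.comap_apply, map_natCast] at hwq
      have e : (q : M) = algebraMap (𝓞 M) M (q : 𝓞 M) := (map_natCast _ _).symm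
      rw [e] at hwq
      exact (v.valuation_lt_one_iff_mem (K := M) _).1 hwq
    have hw7 : ((v.valuation M).comap (algebraMap F M)) (7 : F) = 1 := by
      have := w_nat_one (w := (v.valuation M).comap (algebraMap F M))
        ((Nat.coprime_primes (by norm_num) hqp).2 (hq7 q hqS).symm : Nat.Coprime 7 q) hwq
      exact_mod_cast this
    have hwq1 : ((v.valuation M).comap (algebraMap F M)) (q : F) = exp (-1) :=
      hbig.un _ ⟨v, rfl⟩ q hqp (hq7 q hqS) hqp.ne_one hwq
    have hcop : Nat.Coprime q 7 := (Nat.coprime_primes hqp (by norm_num)).2 (hq7 q hqS)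
    set φ : Gal(M/ℚ) := (galEquivZMod 7 M).symm (ZMod.unitOfCoprime q hcop) with hφd
    have hφ : ((galEquivZMod 7 M φ : (ZMod 7)ˣ) : ZMod 7) = (q : ℕ) := by
      rw [hφd, MulEquiv.apply_symm_apply, ZMod.coe_unitOfCoprime]
    have hcong : ∀ y : 𝓞 M, φ • y - y ^ q ∈ v.asIdeal := by
      intro y
      have h4 := frob_cong 7 (M := M) (p := q) hφ y
      have h5 : Ideal.span {(q : 𝓞 M)} ≤ v.asIdeal := by
        rw [Ideal.span_singleton_le_iff_mem]
        exact hmem
      exact h5 h4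
    have haM : (algebraMap F M a) ^ 2 = algebraMap F M a - 2 := by
      rw [← map_pow, ha, map_sub, map_ofNat]
    refine ⟨(v.valuation M).comap (algebraMap F M), ⟨v, rfl⟩, ?_, hw7, ?_⟩
    · -- the valuation of the prime element
      have hne : ev b hb (pc Q ϖ i) ≠ 0 := ev_ne hb hpi.ne_zero
      obtain ⟨m, hm⟩ := vexp (w := (v.valuation M).comap (algebraMap F M)) hne
      have hm0 : m < 0 := by
        rw [hm, ← exp_zero, exp_lt_exp] at hlt
        exact hlt
      have hm1 : -1 ≤ m := by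
        -- `q = π · c` with `c` integral
        obtain ⟨c', hc'⟩ := hdq
        have h2 := congrArg (ev b hb) hc'
        rw [map_natCast, map_mul] at h2
        have h3 := congrArg ((v.valuation M).comap (algebraMap F M)) h2
        rw [hwq1, map_mul, hm] at h3
        have h4 : exp (-1 : ℤ) ≤ exp m := by
          rw [h3]
          exact mul_le_of_le_one_right' (w_ev hb _ c')
        rwa [exp_le_exp] at h4
      rw [hm]
      congr 1
      omega
    · intro x hx hsq
      have hrat : ∀ (ψ : Gal(M/ℚ)), ψ (algebraMap F M a) = algebraMap F M a → ∀ x : F,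
          ψ (algebraMap F M x) = algebraMap F M x := by
        intro ψ hψ x
        obtain ⟨u, t, rfl⟩ := hF x
        rw [map_add, map_mul, map_ratCast, map_ratCast, map_add, map_mul, map_ratCast,
          map_ratCast, hψ]
      obtain ⟨k, hk⟩ : ∃ k, q = 2 * k + 1 := ⟨q / 2, by have := (hgp q hqS).odd; omega⟩
      rcases hnorm with ⟨h3, h4, -⟩ | ⟨h3, h4⟩
      · -- inert
        have hfix := hrat (φ * φ) (frob_fix2 _ haM)
        have hfr : ∀ x : F, ((v.valuation M).comap (algebraMap F M)) x ≤ 1 →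
            ((v.valuation M).comap (algebraMap F M)) (x - x ^ (q * q)) < 1 := by
          intro x hx
          have h6 := frob_val v (φ := φ * φ) (Q := q * q) (mul_ne_zero hqp.ne_zero hqp.ne_zero)
            (frob_two hcong) (x := algebraMap F M x) hx
          rw [hfix x] at h6
          rw [Valuation.comap_apply, map_sub, map_pow]
          exact h6
        refine sq_sy hb hpi hlt (N := q * q) (k := 2 * k * (k + 1)) ?_ ?_ hfr hx hsq
        · rw [h4]
          push_cast
          ring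
        · rw [hk]
          ring
      · -- split
        have hfix := hrat φ (frob_fixX (h.p q h3) v hmem hcong _ haM)
        have hfr : ∀ x : F, ((v.valuation M).comap (algebraMap F M)) x ≤ 1 →
            ((v.valuation M).comap (algebraMap F M)) (x - x ^ q) < 1 := by
          intro x hx
          have h6 := frob_val v (φ := φ) (Q := q) hqp.ne_zero hcong (x := algebraMap F M x) hx
          rw [hfix x] at h6
          rw [Valuation.comap_apply, map_sub, map_pow]
          exact h6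
        exact sq_sy hb hpi hlt (N := q) (k := k) h4.symm hk hfr hx hsq

end

end Pool.Agent.L0h4.TD
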