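import Pool.Agent.L0h4.TD.Cyx
import Pool.Agent.Y698.Pu

/-!
# The Mordell-Weil group of `y² = x (x - D e) (x - D ē)` is finite
-/

set_option autoImplicit false
set_option linter.unusedSectionVars false
set_option linter.unusedVariables false

open WithZero WeierstrassCurve
open Pool.Agent.H437R2.Man.MW

namespace Pool.Agent.L0h4.TD

open Pool.Agent.Y698 Pool.Agent.Y698.SG

variable {F : Type} [Field F] [CharZero F] [DecidableEq F]

section
variable {a : F} {ha : a ^ 2 = a - 2} {V : Set (Valuation F ℤᵐ⁰)}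
  {S : Finset ℕ}

lemma pt_PDD (hC : CX a ha V S) {x y : F} (hy : y ≠ 0)
    (h : y ^ 2 = x * (x - DD F S * eA a) * (x - DD F S * eB a)) :
    PDD (1 : F ≃+* F) a (DD F S) V (x - DD F S * eB a) := by
  have hx0 : x - DD F S * eB a ≠ 0 := by
    intro h0
    rw [h0, mul_zero] at h
    exact hy (pow_eq_zero_iff two_ne_zero |>.1 h)
  refine ⟨hx0, fun i w hw h7 => ?_⟩
  have h1i : ((1 : F ≃+* F) ^ i) (x - DD F S * eB a) = x - DD F S * eB a := by
    rw [one_pow]
    rfl
  rw [h1i]
  constructor
  · intro hD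
    by_cases h2 : w 2 = 1
    · refine ⟨ev_oddD ha hD h2 h7 hy h, fun hb => ?_⟩
      have := two_lt ha hb
      rw [h2] at this
      exact absurd this (lt_irrefl _)
    · have h2' : w 2 < 1 := lt_of_le_of_ne w_two_le h2
      have h2e : w 2 = exp (-1) := by
        have := hC.big.un w hw 2 Nat.prime_two (by norm_num) (by norm_num)
          (by exact_mod_cast h2')
        exact_mod_cast this
      have hab : w a * w (1 - a) = exp (-1) := by
        rw [← map_mul, ab_eq ha, h2e]
      by_cases hwa : w a = 1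
      · have hU := ur_twoD ha hD (hC.w_DD_sub w) h2' h7 hwa hy h
        exact ⟨hU.ev h2', fun _ => hU⟩
      · have hb1 : w (1 - a) = 1 := by
          have ha0 : a ≠ 0 := by
            rintro rfl
            rw [map_zero, zero_mul] at hab
            exact exp_ne_zero hab.symm
          have hb0 : (1 - a) ≠ 0 := by
            intro h0
            rw [h0, map_zero, mul_zero] at hab
            exact exp_ne_zero hab.symm
          obtain ⟨m, hm⟩ := vexp (w := w) ha0
          obtain ⟨k, hk⟩ := vexp (w := w) hb0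
          have h1 := wa_le (w := w) ha
          have h3 := wa_le (w := w) (ha_conj ha)
          rw [hm] at h1 hwa hab
          rw [hk] at h3 hab
          rw [← exp_add, exp_inj] at hab
          rw [← exp_zero, exp_le_exp] at h1 h3
          rw [← exp_zero, exp_inj] at hwa
          rw [hk, ← exp_zero, exp_inj]
          omega
        refine ⟨ev_twoD ha hD (hC.w_DD_sub w) h2e h7 hb1 hy h, fun hb => ?_⟩
        rw [hb1] at hb
        exact absurd hb (lt_irrefl _)
  · intro hD
    have h2 : w 2 = 1 := by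
      by_contra h2
      have h2' : w 2 < 1 := lt_of_le_of_ne w_two_le h2
      have := hC.w_DD Nat.prime_two hC.two_notin (by exact_mod_cast h2')
      rw [this] at hD
      exact lt_irrefl _ hD
    exact sq_D ha (hC.w_DD_exp hw hD) h2 h7 hy h

lemma pt_classesD (hC : CX a ha V S) {x y : F} (hy : y ≠ 0)
    (h : y ^ 2 = x * (x - DD F S * eA a) * (x - DD F S * eB a)) :
    (SqE (x - DD F S * eB a) 1 ∨ SqE (x - DD F S * eB a) (DD F S * (2 * a - 1))) ∧
      (SqE (x - DD F S * eA a) 1 ∨ SqE (x - DD F S * eA a) (-(DD F S * (2 * a - 1)))) := by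
  refine ⟨hC.main (pt_PDD hC hy h), ?_⟩
  have h1 : y ^ 2 = x * (x - DD F S * eA (1 - a)) * (x - DD F S * eB (1 - a)) := by
    rw [eA_conj, eB_conj, h]
    ring
  have h2 := hC.conj.main (pt_PDD hC.conj hy h1)
  rw [eB_conj] at h2
  have e : DD F S * (2 * (1 - a) - 1) = -(DD F S * (2 * a - 1)) := by ring
  unfold SDD at h2
  rwa [e] at h2

end

theorem pt_finiteD [NumberField F] {a : F} {ha : a ^ 2 = a - 2} 
    {V : Set (Valuation F ℤᵐ⁰)} {S : Finset ℕ} (hC : CX a ha V S) :
    Finite (Pt (0 : F) (-(DD F S * eA a)) (-(DD F S * eB a))) := by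
  have hD0 : DD F S ≠ 0 := DD_ne fun q hq => (hC.inS q hq).1
  obtain ⟨n1, n2, n3⟩ := roots_neD ha hD0
  exact finite_of_dec (pt_fg n1 n2 n3) (dec_of_classes ha hD0 fun x y hy h => pt_classesD hC hy h)

end Pool.Agent.L0h4.TD
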