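import Pool.Agent.L0h4.TD.Shdx
import Pool.Agent.Y698.Shbd

/-!
# The 2-torsion of the Tate-Shafarevich group of the twists: the group
-/

set_option autoImplicit false
set_option linter.unusedSectionVars false

attribute [-instance] DivisionRing.toRatAlgebra

namespace Pool.Agent.L0h4.TD

open Pool.Agent.Y698 Pool.Agent.Y698.SG

open WeierstrassCurve IsDedekindDomain NumberField WithZero

open Pool.Agent.TH841.SH.D (Pt act Gal Coch IsCoc IsCob LocTriv cob)
open Pool.Agent.TH841.NF.D (IsShaCoc shaCoc Sha)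
open Pool.Agent.TH841.SH (IsR IsX gf isX_zero isX_some not_isX)
open Pool.Agent.TH841.NF (act_act act_id act_some' pt_ext pt_inj coc_fin)

open scoped Classical

variable {j : ℕ} {K F : Type} [Field K] [NumberField K] [Field F] [NumberField F] [Algebra K F]

lemma loc_vPd {f : Coch (AX K j)} {E : Type} [Field E] [CharZero E] [Algebra K E]
    (h : LocTriv (AX K j) E f) :
    LocTriv (EE K (1 + 4 * j)) E (fun σ => vPd K j (Cb K) (f σ)) := by
  intro ι
  obtain ⟨P, hP⟩ := h ι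
  refine ⟨vPd K j (AlgebraicClosure E) P, fun τ σ hσ => ?_⟩
  rw [act_vPd, act_vPd, hP τ σ hσ, map_sub]

theorem sha_twoD {a : F} (ha : a ^ 2 = a - 2)
    (hF : ∀ x : F, ∃ k₁ k₂ : K, x = algebraMap K F k₁ + algebraMap K F k₂ * a)
    {V : Set (Valuation F ℤᵐ⁰)} {S : Finset ℕ}
    (hC : CX a ha V S) (hDS : 1 + 4 * j = ∏ q ∈ S, q)
    (hV : ∀ w ∈ V, (∀ x : 𝓞 F, w (algebraMap (𝓞 F) F x) ≤ 1) ∧
      ∃ x : 𝓞 F, x ≠ 0 ∧ w (algebraMap (𝓞 F) F x) < 1)
    (hun : ∀ P : HeightOneSpectrum (𝓞 F), P.valuation F 2 < 1 → P.valuation F 2 = exp (-1))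
    (hunD : ∀ P : HeightOneSpectrum (𝓞 F), P.valuation F ((1 + 4 * j : ℕ) : F) < 1 →
      P.valuation F ((1 + 4 * j : ℕ) : F) = exp (-1))
    (x : Sha (AX K j)) (hx : x + x = 0) : x = 0 := by
  obtain ⟨f, rfl⟩ := QuotientAddGroup.mk_surjective x
  have hx' : f + f ∈ (cob (AX K j)).addSubgroupOf (shaCoc (AX K j)) :=
    (QuotientAddGroup.eq_zero_iff (f + f)).1 hx
  rw [AddSubgroup.mem_addSubgroupOf] at hx'
  refine (QuotientAddGroup.eq_zero_iff f).2 ?_
  rw [AddSubgroup.mem_addSubgroupOf]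
  obtain ⟨P, hP⟩ := hx'
  have hP1 : ∀ τ : Gal K, (f : Coch (AX K j)) τ + (f : Coch (AX K j)) τ =
    act (AX K j) τ.toAlgHom P - P := hP
  obtain ⟨⟨hlc, hcoc⟩, hloc, -⟩ := f.2
  -- the embedding of `F`
  have halg : Algebra.IsAlgebraic K F := by
    have h1 : IsAlgebraic K a := by
      refine ⟨Polynomial.X ^ 2 - Polynomial.X + Polynomial.C 2, ?_, ?_⟩
      · intro h
        have h2 := congrArg (fun p => Polynomial.coeff p 2) h
        simp only [Polynomial.coeff_add, Polynomial.coeff_sub, Polynomial.coeff_X_pow,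
          Polynomial.coeff_X, Polynomial.coeff_C, Polynomial.coeff_zero] at h2
        norm_num at h2
      · simp only [map_add, map_sub, map_pow, Polynomial.aeval_X, map_ofNat]
        rw [ha]
        ring
    refine ⟨fun x => ?_⟩
    obtain ⟨k₁, k₂, rfl⟩ := hF x
    exact (isAlgebraic_algebraMap k₁).add ((isAlgebraic_algebraMap k₂).mul h1)
  let κ : F →ₐ[K] Cb K := IsAlgClosed.lift
  let i1 : Algebra F (Cb K) := κ.toRingHom.toAlgebra
  have i2 : IsScalarTower K F (Cb K) := IsScalarTower.of_algebraMap_eq fun x => (κ.commutes x).symm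
  have i3 : Algebra.IsAlgebraic F (Cb K) := Algebra.IsAlgebraic.tower_top (K := K) F
  have i4 : IsAlgClosure F (Cb K) := ⟨inferInstance, inferInstance⟩
  have i5 : Normal F (Cb K) := IsAlgClosure.normal F (Cb K)
  have i6 : IsGalois F (Cb K) := { to_isSeparable := inferInstance, to_normal := i5 }
  -- halving
  have hcK : ∃ c : Cb K, c ^ 2 = c - 2 := ⟨κ a, by rw [← map_pow, ha, map_sub, map_ofNat]⟩
  obtain ⟨c, hc⟩ := hcK
  have hIs := isRD (K := K) hc (1 + 4 * j)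
  obtain ⟨hs0, n1, n2, n3⟩ := rAB_ne (D := 1 + 4 * j) (by omega) hc
  obtain ⟨Q, hQ⟩ : ∃ Q : Pt (EE K (1 + 4 * j)) (Cb K), vPd K j (Cb K) P = Q + Q :=
    hIs.div two_ne_zero n1 n2 n3 (vPd K j (Cb K) P)
  have hg : Co2D (D := 1 + 4 * j) (K := K) (fun τ => vPd K j (Cb K) ((f : Coch (AX K j)) τ) -
      (act (EE K (1 + 4 * j)) τ.toAlgHom Q - Q)) := by
    refine ⟨fun τ => ?_, fun σ τ => ?_, ?_, fun v => ?_⟩
    · have e : ∀ A B D : Pt (EE K (1 + 4 * j)) (Cb K), (A - (B - D)) + (A - (B - D)) =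
          (A + A) - ((B + B) - (D + D)) := fun A B D => by abel
      show vPd K j (Cb K) ((f : Coch (AX K j)) τ) - (act (EE K (1 + 4 * j)) τ.toAlgHom Q - Q) +
        (vPd K j (Cb K) ((f : Coch (AX K j)) τ) - (act (EE K (1 + 4 * j)) τ.toAlgHom Q - Q)) = 0
      rw [e, ← map_add, hP1, ← map_add, ← hQ, map_sub, act_vPd, sub_self]
    · show vPd K j (Cb K) ((f : Coch (AX K j)) (σ * τ)) - (act (EE K (1 + 4 * j)) (σ * τ).toAlgHom Q - Q) = _
      rw [hcoc, map_add, act_mul', map_sub, map_sub, act_vPd]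
      abel
    · obtain ⟨S, hS⟩ := coc_fin (W := AX K j) ⟨hlc, hcoc⟩
      obtain ⟨S', hS'⟩ := fix_fin Q
      refine ⟨S ∪ S', fun τ hτ => ?_⟩
      show vPd K j (Cb K) ((f : Coch (AX K j)) τ) - (act (EE K (1 + 4 * j)) τ.toAlgHom Q - Q) = 0
      rw [hS τ (fun x hx => hτ x (Finset.mem_union_left _ hx)), map_zero,
        hS' τ (fun x hx => hτ x (Finset.mem_union_right _ hx)), sub_self, sub_self]
    · have hch : CharZero (v.adicCompletion K) := charC v
      exact loc_sub (loc_vPd (hloc v)) Q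
  obtain ⟨R, hR⟩ := g_cobD (F := F) hg ha hF hC hDS hV hun hunD
  obtain ⟨R', hR'⟩ := vPd_surj K j (Cb K) (Q + R)
  refine ⟨R', fun τ => ?_⟩
  apply vPd_inj K j (Cb K)
  have h1 := hR τ
  have h2 : vPd K j (Cb K) ((f : Coch (AX K j)) τ) =
      (act (EE K (1 + 4 * j)) τ.toAlgHom R - R) + (act (EE K (1 + 4 * j)) τ.toAlgHom Q - Q) := by
    rw [← h1]
    abel
  rw [h2, map_sub, ← act_vPd, hR', map_add]
  abel

end Pool.Agent.L0h4.TD
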